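import Pool.Agent.H37.CPX.Targets

/-!
# Products of the signs
-/

set_option autoImplicit false

namespace Pool.Agent.H72.CPX

open Finset
open Pool.Agent.H37.CPX

theorem zmod2_or : ∀ a : ZMod 2, a = 0 ∨ a = 1 := by decide

theorem sgn_zero : sgn 0 = 1 := by simp [sgn]

theorem sgn_one : sgn 1 = -1 := by
  have h : (1 : ZMod 2) ≠ 0 := by decide
  simp [sgn, h]

theorem sgn_add (a b : ZMod 2) : sgn (a + b) = sgn a * sgn b := by
  have h11 : (1 : ZMod 2) + 1 = 0 := by decide
  rcases zmod2_or a with ha | ha <;> rcases zmod2_or b with hb | hb <;> subst ha <;> subst hb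
  · rw [add_zero, sgn_zero]; norm_num
  · rw [zero_add, sgn_zero, sgn_one]; norm_num
  · rw [add_zero, sgn_zero, sgn_one]; norm_num
  · rw [h11, sgn_zero, sgn_one]; norm_num

theorem sgn_or (a : ZMod 2) : sgn a = 1 ∨ sgn a = -1 := by
  unfold sgn
  split_ifs
  · exact Or.inl rfl
  · exact Or.inr rfl

theorem sgn_sum {ι : Type*} (s : Finset ι) (f : ι → ZMod 2) :
    sgn (∑ i ∈ s, f i) = ∏ i ∈ s, sgn (f i) := by
  classical
  induction s using Finset.induction_on with
  | empty => simp [sgn]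
  | insert a s ha ih => rw [sum_insert ha, prod_insert ha, sgn_add, ih]

theorem sgn_pow (a : ZMod 2) (n : ℕ) : sgn a ^ n = if n % 2 = 1 then sgn a else 1 := by
  rcases Nat.even_or_odd n with h | h
  · have h2 : ¬ (n % 2 = 1) := by rw [Nat.even_iff] at h; omega
    rw [if_neg h2]
    rcases sgn_or a with ha | ha
    · rw [ha, one_pow]
    · rw [ha, h.neg_one_pow]
  · rw [if_pos (Nat.odd_iff.mp h)]
    rcases sgn_or a with ha | ha
    · rw [ha, one_pow]
    · rw [ha, h.neg_one_pow]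

theorem swap_prod {N m : ℕ} (S : Fin m → Finset (Fin N)) (J : Finset (Fin m))
    (f : Fin N → ℝ) :
    ∏ j ∈ J, ∏ i ∈ S j, f i = ∏ i : Fin N, f i ^ (J.filter (fun j => i ∈ S j)).card := by
  have h1 : ∀ j ∈ J, ∏ i ∈ S j, f i = ∏ i : Fin N, if i ∈ S j then f i else 1 := by
    intro j _
    rw [prod_ite_mem, univ_inter]
  rw [prod_congr rfl h1, prod_comm]
  refine prod_congr rfl fun i _ => ?_
  rw [← prod_filter, prod_const]

theorem pf_VPR : S_VPR := by
  refine ⟨sgn_add, sgn_or, ?_⟩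
  intro N m k w0 s J z
  have h1 : ∀ j ∈ J, s.v j z = sgn (s.b j) * ∏ i ∈ s.S j, sgn (z i) := by
    intro j _
    unfold Sy.v
    rw [sgn_add, sgn_sum]
  rw [prod_congr rfl h1, prod_mul_distrib, swap_prod]
  congr 1
  unfold chi Sy.P
  rw [prod_filter]
  exact prod_congr rfl fun i _ => sgn_pow _ _

end Pool.Agent.H72.CPX
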